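import Pool.Agent.H29.DW.Targets
import Pool.Agent.H32.GLB.AF

/-!
# The approximate functional equation with weights
-/

set_option autoImplicit false

open Complex MeasureTheory Set Filter Topology
open scoped ENNReal

namespace Pool.Agent.H45.DW

open Pool.Agent.H29.DW Pool.Agent.H32.GLB

lemma gauss4_bd (v : ℝ) : Real.exp (-v ^ 2 / 4) ≤ Real.exp 1 * Real.exp (-(1 * |v|)) := by
  rw [← Real.exp_add]
  apply Real.exp_le_exp.2
  have h : v ^ 2 = |v| ^ 2 := (sq_abs v).symm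
  rw [h]
  nlinarith [sq_nonneg (|v| / 2 - 1)]

lemma poly_gauss4 (n : ℕ) : ∃ C : ℝ, 1 ≤ C ∧ ∀ v : ℝ,
    (1 + |v|) ^ n * Real.exp (-v ^ 2 / 2) ≤ C * Real.exp (-v ^ 2 / 4) := by
  refine ⟨(n.factorial : ℝ) * Real.exp 2, ?_, ?_⟩
  · have h1 : (1 : ℝ) ≤ n.factorial := by exact_mod_cast n.factorial_pos
    have h2 : (1 : ℝ) ≤ Real.exp 2 := Real.one_le_exp (by norm_num)
    nlinarith
  · intro v
    have h1 : (1 + |v|) ^ n ≤ n.factorial * Real.exp (1 + |v|) := by
      have := Real.pow_div_factorial_le_exp (1 + |v|) (by positivity) n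
      rw [div_le_iff₀ (by positivity)] at this
      linarith
    have h2 : Real.exp (1 + |v|) * Real.exp (-v ^ 2 / 2) ≤
        Real.exp 2 * Real.exp (-v ^ 2 / 4) := by
      rw [← Real.exp_add, ← Real.exp_add]
      apply Real.exp_le_exp.2
      have h : v ^ 2 = |v| ^ 2 := (sq_abs v).symm
      rw [h]
      nlinarith [sq_nonneg (|v| / 2 - 1)]
    calc (1 + |v|) ^ n * Real.exp (-v ^ 2 / 2)
        ≤ (n.factorial * Real.exp (1 + |v|)) * Real.exp (-v ^ 2 / 2) :=
          mul_le_mul_of_nonneg_right h1 (Real.exp_pos _).le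
      _ = n.factorial * (Real.exp (1 + |v|) * Real.exp (-v ^ 2 / 2)) := by ring
      _ ≤ n.factorial * (Real.exp 2 * Real.exp (-v ^ 2 / 4)) :=
          mul_le_mul_of_nonneg_left h2 (by positivity)
      _ = _ := by ring

/-- continuity on the lines -/
lemma line_cont {κ : ℝ} {k : ℂ → ℂ} (hk : ∀ w : ℂ, κ ≤ w.re → w.re ≤ 1 → DifferentiableAt ℂ k w)
    (b : ℝ) (h1 : κ ≤ b) (h2 : b ≤ 1) : Continuous fun v : ℝ => k (b + v * I) := by
  rw [continuous_iff_continuousAt]
  intro v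
  exact ContinuousAt.comp (f := fun v : ℝ => (b : ℂ) + v * I)
    (hk _ (by simpa using h1) (by simpa using h2)).continuousAt (by fun_prop)

/-- the weight of a kernel -/
lemma wt_of_ker {κ : ℝ} (hκ : 0 < κ) (hκ1 : κ ≤ 1) {k : ℂ → ℂ} {D Y : ℝ} (hD : 0 ≤ D)
    (hY : 0 < Y)
    (hk : ∀ w : ℂ, κ ≤ w.re → w.re ≤ 1 → DifferentiableAt ℂ k w)
    (hkb : ∀ w : ℂ, κ ≤ w.re → w.re ≤ 1 → ‖k w‖ ≤ D * Y ^ w.re * Real.exp (-w.im ^ 2 / 4)) :
    Wt κ Y D (fun x => ∫ v : ℝ, k (1 + v * I) * (x : ℂ) ^ (-(1 / 2 + 1 + v * I : ℂ))) := by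
  intro σ hσ
  have hσκ : κ ≤ σ := by rcases hσ with h | h <;> rw [h]; exact hκ1
  have hσ1 : σ ≤ 1 := by rcases hσ with h | h <;> rw [h]; exact hκ1
  refine ⟨fun y => k (σ + y * I), (line_cont hk σ hσκ hσ1).measurable, ?_, ?_⟩
  · intro y
    have h := hkb (σ + y * I) (by simpa using hσκ) (by simpa using hσ1)
    have e1 : ((σ : ℂ) + y * I).im = y := by simp
    have e2 : ((σ : ℂ) + y * I).re = σ := by simp
    rw [e1, e2] at h
    exact h
  · intro x hx
    have hxc : (x : ℂ) ≠ 0 := by exact_mod_cast hx.ne'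
    have h := Pool.Agent.Ratios.integral_vertical_shift
      (fun w => k w * (x : ℂ) ^ (-(1 / 2 + w))) σ 1 hσ1
      (D * (Y + Y⁻¹) * (x ^ (-(1 / 2) : ℝ) * (x + x⁻¹)) * Real.exp 1) 1 one_pos
      (fun w h1 h2 => by
        refine (hk w (hσκ.trans h1) h2).mul ?_
        exact DifferentiableAt.const_cpow (by fun_prop) (Or.inl hxc))
      (fun w h1 h2 => by
        have h3 := hkb w (hσκ.trans h1) h2
        have hre : |w.re| ≤ 1 := abs_le.2 ⟨by linarith, h2⟩
        have h4 := rpow_bd hY hre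
        have h5 := gauss4_bd w.im
        rw [norm_mul, Complex.norm_cpow_eq_rpow_re_of_pos hx]
        have e : (-(1 / 2 + w) : ℂ).re = -(1 / 2) + -w.re := by simp [add_comm]
        rw [e, Real.rpow_add hx]
        have h6 := rpow_bd (X := x) (x := -w.re) hx (by rwa [abs_neg])
        calc ‖k w‖ * (x ^ (-(1 / 2) : ℝ) * x ^ (-w.re))
            ≤ (D * Y ^ w.re * Real.exp (-w.im ^ 2 / 4)) *
                (x ^ (-(1 / 2) : ℝ) * (x + x⁻¹)) :=
              mul_le_mul h3 (mul_le_mul_of_nonneg_left h6 (by positivity)) (by positivity)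
                (by positivity)
          _ ≤ (D * (Y + Y⁻¹) * (Real.exp 1 * Real.exp (-(1 * |w.im|)))) *
                (x ^ (-(1 / 2) : ℝ) * (x + x⁻¹)) := by
              refine mul_le_mul_of_nonneg_right ?_ (by positivity)
              exact mul_le_mul (mul_le_mul_of_nonneg_left h4 hD) h5 (Real.exp_pos _).le
                (by positivity)
          _ = _ := by ring)
    have h7 : ∀ v : ℝ, k (1 + v * I) * (x : ℂ) ^ (-(1 / 2 + 1 + v * I : ℂ)) =
        k (((1 : ℝ) : ℂ) + v * I) * (x : ℂ) ^ (-(1 / 2 + (((1 : ℝ) : ℂ) + v * I))) := by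
      intro v
      rw [ofReal_one, ← add_assoc (1 / 2 : ℂ)]
    have h8 : ∀ v : ℝ, k (σ + v * I) * (x : ℂ) ^ (-(1 / 2 + σ + v * I : ℂ)) =
        k (σ + v * I) * (x : ℂ) ^ (-(1 / 2 + ((σ : ℂ) + v * I))) := by
      intro v
      rw [← add_assoc (1 / 2 : ℂ)]
    simp only [h7, h8]
    exact h

/-- interchange of sum and integral -/
lemma swap_int {ι : Type} (b : ι → ℂ) (N : ι → ℝ) (hN : ∀ i, 1 ≤ N i)
    (hs : Summable fun i => N i ^ (-(3 / 2) : ℝ)) (A : ℝ) (hA : ∀ i, ‖b i‖ ≤ A)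
    (k : ℝ → ℂ) (hk : Continuous k) (D : ℝ)
    (hkb : ∀ v, ‖k v‖ ≤ D * Real.exp (-v ^ 2 / 4)) (s : ℂ) (hsr : s.re = 1 / 2) :
    ∫ v : ℝ, (∑' i, b i * (N i : ℂ) ^ (-(s + (1 + v * I)))) * k v =
      ∑' i, b i * ((∫ v : ℝ, k v * (N i : ℂ) ^ (-(1 / 2 + 1 + v * I : ℂ))) *
        (N i : ℂ) ^ (-(s - 1 / 2))) := by
  have hN0 : ∀ i, 0 < N i := fun i => lt_of_lt_of_le one_pos (hN i)
  have hcι : Countable ι := by
    have h1 := hs.countable_support
    have h2 : Function.support (fun i => N i ^ (-(3 / 2) : ℝ)) = univ := by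
      ext i
      simp only [Function.mem_support, mem_univ, iff_true]
      exact (Real.rpow_pos_of_pos (hN0 i) _).ne'
    rw [h2] at h1
    exact countable_univ_iff.1 h1
  have hNc : ∀ i, (N i : ℂ) ≠ 0 := fun i => by exact_mod_cast (hN0 i).ne'
  have hterm : ∀ i, ∀ v : ℝ, b i * (N i : ℂ) ^ (-(s + (1 + v * I))) * k v =
      (b i * (N i : ℂ) ^ (-(s - 1 / 2))) *
        (k v * (N i : ℂ) ^ (-(1 / 2 + 1 + v * I : ℂ))) := by
    intro i v
    have e : (-(s + (1 + v * I)) : ℂ) = -(s - 1 / 2) + -(1 / 2 + 1 + v * I) := by ring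
    rw [e, Complex.cpow_add _ _ (hNc i)]
    ring
  have hnorm : ∀ i, ∀ v : ℝ, ‖b i * (N i : ℂ) ^ (-(s + (1 + v * I))) * k v‖ ≤
      (|A| * N i ^ (-(3 / 2) : ℝ)) * (|D| * (Real.exp 1 * Real.exp (-(1 * |v|)))) := by
    intro i v
    rw [norm_mul, norm_mul, Complex.norm_cpow_eq_rpow_re_of_pos (hN0 i)]
    have e : (-(s + (1 + v * I)) : ℂ).re = -(3 / 2) := by
      simp [hsr]
      norm_num
    rw [e]
    refine mul_le_mul (mul_le_mul_of_nonneg_right ((hA i).trans (le_abs_self A)) ?_) ?_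
      (norm_nonneg _) ?_
    · exact (Real.rpow_pos_of_pos (hN0 i) _).le
    · refine (hkb v).trans ?_
      exact mul_le_mul (le_abs_self D) (gauss4_bd v) (Real.exp_pos _).le (abs_nonneg _)
    · exact mul_nonneg (abs_nonneg _) (Real.rpow_pos_of_pos (hN0 i) _).le
  have hcont : ∀ i, Continuous fun v : ℝ => b i * (N i : ℂ) ^ (-(s + (1 + v * I))) * k v := by
    intro i
    refine (continuous_const.mul ?_).mul hk
    refine Continuous.const_cpow (by fun_prop) (Or.inl (hNc i))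
  have hI0 : Integrable fun v : ℝ => |D| * (Real.exp 1 * Real.exp (-(1 * |v|))) :=
    ((Pool.Agent.Ratios.integrable_exp_neg_mul_abs 1 one_pos).const_mul _).const_mul _
  have hint : ∀ i, Integrable fun v : ℝ => b i * (N i : ℂ) ^ (-(s + (1 + v * I))) * k v :=
    fun i => (hI0.const_mul (|A| * N i ^ (-(3 / 2) : ℝ))).mono' (hcont i).aestronglyMeasurable
      (Eventually.of_forall fun v => hnorm i v)
  have hsum : Summable fun i => ∫ v : ℝ, ‖b i * (N i : ℂ) ^ (-(s + (1 + v * I))) * k v‖ := by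
    refine Summable.of_nonneg_of_le (fun i => integral_nonneg fun v => norm_nonneg _)
      (fun i => ?_) ((hs.mul_left |A|).mul_right
        (∫ v : ℝ, |D| * (Real.exp 1 * Real.exp (-(1 * |v|)))))
    rw [← integral_const_mul]
    exact integral_mono (hint i).norm (hI0.const_mul _) fun v => hnorm i v
  have hsw := hasSum_integral_of_summable_integral_norm hint hsum
  have e1 : ∫ v : ℝ, (∑' i, b i * (N i : ℂ) ^ (-(s + (1 + v * I)))) * k v =
      ∫ v : ℝ, ∑' i, b i * (N i : ℂ) ^ (-(s + (1 + v * I))) * k v := by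
    refine integral_congr_ae (Eventually.of_forall fun v => ?_)
    exact tsum_mul_right.symm
  rw [e1, ← hsw.tsum_eq]
  refine tsum_congr fun i => ?_
  simp only [hterm i]
  rw [integral_const_mul]
  ring

theorem pf_AE : V_AE := by
  intro n
  obtain ⟨Cn, hCn1, hCn⟩ := poly_gauss4 n
  refine ⟨18 * Real.exp 1 * Cn, by positivity, ?_⟩
  intro κ hκ hκ1 ι L E G a a' N X t B hX hB hN hNs hA hE hEL hEb hL hL' hG hGb
  obtain ⟨b1, b2⟩ := s0_bd t
  set s₀ : ℂ := 1 / 2 + t * I with hs₀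
  have hs0 : s₀ ≠ 0 := fun h => by rw [h, norm_zero] at b1; norm_num at b1
  have hs1 : s₀ - 1 ≠ 0 := fun h => by rw [h, norm_zero] at b2; norm_num at b2
  have hre : s₀.re = 1 / 2 := by simp [hs₀]
  have him : s₀.im = t := by simp [hs₀]
  have hXc : (X : ℂ) ≠ 0 := by exact_mod_cast hX.ne'
  have hN0 : ∀ i, 0 < N i := fun i => lt_of_lt_of_le one_pos (hN i)
  set F : ℂ → ℂ := fun w => E (s₀ + w) / (s₀ * (s₀ - 1)) * (X : ℂ) ^ w * cexp (w ^ 2) with hF
  have hF0 : F 0 = L s₀ := by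
    have hne : s₀ ≠ 1 := fun h => hs1 (by rw [h, sub_self])
    simp only [hF, add_zero, Complex.cpow_zero, mul_one]
    rw [hEL s₀ hs0 hne]
    simp
    field_simp
  obtain ⟨C, A, hC⟩ := hEb
  -- contour
  have hcon := Pool.Agent.H58.MZ.sh Pool.Agent.H2.PZ.vv F (-1) 1
    (|C| * Real.exp (|A| * |t|) / ‖s₀ * (s₀ - 1)‖ * (X + X⁻¹) *
      (Real.exp 1 * Real.exp ((|A| + 1) ^ 2))) 0 (by simp) (by simp)
    (fun s _ _ => by
      have h1 : DifferentiableAt ℂ (fun w : ℂ => (X : ℂ) ^ w) s :=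
        DifferentiableAt.const_cpow differentiableAt_id (Or.inl hXc)
      have h2 : DifferentiableAt ℂ (fun w : ℂ => E (s₀ + w)) s :=
        (hE.comp (differentiable_id.const_add s₀)).differentiableAt
      exact ((h2.div_const _).mul h1).mul (by fun_prop))
    (fun s h1 h2 => by
      have hab1 : |s.re| ≤ 1 := abs_le.2 ⟨h1, h2⟩
      have e1 : ‖E (s₀ + s)‖ ≤ |C| * Real.exp (|A| * |t|) * Real.exp (|A| * |s.im|) := by
        refine (hC (s₀ + s) ?_).trans ?_
        · rw [Complex.add_re, hre]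
          rw [abs_le]
          constructor <;> linarith
        · rw [Complex.add_im, him]
          have h3 : A * |t + s.im| ≤ |A| * |t| + |A| * |s.im| := by
            calc A * |t + s.im| ≤ |A| * |t + s.im| :=
                  mul_le_mul_of_nonneg_right (le_abs_self A) (abs_nonneg _)
              _ ≤ |A| * (|t| + |s.im|) :=
                  mul_le_mul_of_nonneg_left (abs_add_le _ _) (abs_nonneg A)
              _ = _ := by ring
          calc C * Real.exp (A * |t + s.im|) ≤ |C| * Real.exp (|A| * |t| + |A| * |s.im|) :=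
                mul_le_mul (le_abs_self C) (Real.exp_le_exp.2 h3) (Real.exp_pos _).le
                  (abs_nonneg C)
            _ = _ := by
                rw [Real.exp_add]
                ring
      have e2 := exp_sq_bd hab1
      have e3 : Real.exp (-s.im ^ 2) ≤ Real.exp (-s.im ^ 2 / 2) :=
        Real.exp_le_exp.2 (by nlinarith [sq_nonneg s.im])
      have e4 := rpow_bd hX hab1
      have e5 := exp_gauss |A| s.im
      rw [abs_abs] at e5
      simp only [hF]
      rw [norm_mul, norm_mul, norm_div, Complex.norm_cpow_eq_rpow_re_of_pos hX]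
      have hN : 0 ≤ ‖s₀ * (s₀ - 1)‖ := norm_nonneg _
      calc ‖E (s₀ + s)‖ / ‖s₀ * (s₀ - 1)‖ * X ^ s.re * ‖cexp (s ^ 2)‖
          ≤ (|C| * Real.exp (|A| * |t|) * Real.exp (|A| * |s.im|)) / ‖s₀ * (s₀ - 1)‖ *
              (X + X⁻¹) * (Real.exp 1 * Real.exp (-s.im ^ 2 / 2)) := by
            refine mul_le_mul (mul_le_mul ?_ e4 (by positivity) (by positivity))
              (e2.trans (mul_le_mul_of_nonneg_left e3 (Real.exp_pos _).le)) (norm_nonneg _)
              (by positivity)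
            exact div_le_div_of_nonneg_right e1 hN
        _ = (|C| * Real.exp (|A| * |t|) / ‖s₀ * (s₀ - 1)‖ * (X + X⁻¹) * Real.exp 1) *
              (Real.exp (|A| * |s.im|) * Real.exp (-s.im ^ 2 / 2)) := by ring
        _ ≤ (|C| * Real.exp (|A| * |t|) / ‖s₀ * (s₀ - 1)‖ * (X + X⁻¹) * Real.exp 1) *
              (Real.exp ((|A| + 1) ^ 2) * Real.exp (-(1 * |s.im|))) :=
            mul_le_mul_of_nonneg_left e5 (by positivity)
        _ = _ := by
            rw [one_mul]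
            ring)
  rw [hF0] at hcon
  -- the two integrals
  have i1 : ∫ v : ℝ, F ((1 : ℝ) + v * I) / ((1 : ℝ) + v * I - 0) =
      ∫ v : ℝ, (∑' i, a i * (N i : ℂ) ^ (-(s₀ + (1 + v * I)))) * ker t X (1 + v * I) := by
    refine integral_congr_ae (Eventually.of_forall fun v => ?_)
    have hr : (s₀ + (1 + v * I)).re = 3 / 2 := by
      rw [Complex.add_re, hre]
      simp
      norm_num
    have h0 : s₀ + (1 + v * I) ≠ 0 := fun h => by rw [h] at hr; norm_num at hr
    have h1 : s₀ + (1 + v * I) ≠ 1 := fun h => by rw [h] at hr; norm_num at hr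
    simp only [hF, ofReal_one, sub_zero]
    rw [hEL _ h0 h1, hL _ (by rw [hr]; norm_num)]
    unfold Pool.Agent.H32.GLB.ker
    rw [← hs₀]
    ring
  have i2 : ∫ v : ℝ, F ((-1 : ℝ) + v * I) / ((-1 : ℝ) + v * I - 0) =
      ∫ v : ℝ, (∑' i, a' i * (N i : ℂ) ^ (-(1 - s₀ + (1 + v * I)))) *
        (G (1 - s₀ + (1 + v * I)) * ker t X (-(1 + v * I))) := by
    rw [← integral_neg_eq_self]
    refine integral_congr_ae (Eventually.of_forall fun v => ?_)
    have e : (((-1 : ℝ) : ℂ) + ((-v : ℝ) : ℂ) * I) = -(1 + v * I) := by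
      push_cast
      ring
    have hr : (1 - s₀ + (1 + v * I)).re = 3 / 2 := by
      rw [Complex.add_re, Complex.sub_re, hre]
      simp
      norm_num
    have hr2 : (s₀ + -(1 + v * I)).re = -(1 / 2) := by
      rw [Complex.add_re, hre]
      simp
      norm_num
    have h0 : s₀ + -(1 + v * I) ≠ 0 := fun h => by rw [h] at hr2; norm_num at hr2
    have h1 : s₀ + -(1 + v * I) ≠ 1 := fun h => by rw [h] at hr2; norm_num at hr2
    simp only [hF, e, sub_zero]
    have h2 := hL' _ (by rw [hr]; norm_num)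
    have e2 : 1 - (1 - s₀ + (1 + v * I)) = s₀ + -(1 + v * I) := by ring
    rw [e2] at h2
    rw [hEL _ h0 h1, h2]
    unfold Pool.Agent.H32.GLB.ker
    rw [← hs₀]
    ring
  rw [i1, i2] at hcon
  obtain ⟨AA, hAA⟩ := hA
  have hs32 : Summable fun i => N i ^ (-(3 / 2) : ℝ) := hNs (3 / 2) (by norm_num)
  have wne : ∀ w : ℂ, κ ≤ w.re → w ≠ 0 := fun w h h0 => by
    rw [h0] at h
    simp at h
    linarith
  have hpi := Real.pi_gt_three
  have hp : ‖((1 / (2 * Real.pi) : ℝ) : ℂ)‖ ≤ 1 := by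
    rw [Complex.norm_real, Real.norm_of_nonneg (by positivity), div_le_one (by positivity)]
    linarith
  -- the kernels
  obtain ⟨k1, hk1⟩ : ∃ k1 : ℂ → ℂ, k1 = fun w => ((1 / (2 * Real.pi) : ℝ) : ℂ) * ker t X w :=
    ⟨_, rfl⟩
  obtain ⟨k2, hk2⟩ : ∃ k2 : ℂ → ℂ, k2 = fun w => -((1 / (2 * Real.pi) : ℝ) : ℂ) *
      (G (1 - s₀ + w) * ker t X (-w)) := ⟨_, rfl⟩
  have hD : 0 ≤ 18 * Real.exp 1 * Cn * κ⁻¹ * B := by positivity
  have hk1d : ∀ w : ℂ, κ ≤ w.re → w.re ≤ 1 → DifferentiableAt ℂ k1 w := by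
    intro w h1 _
    rw [hk1]
    exact (ker_diff t hX (wne w h1)).const_mul _
  have hk1b : ∀ w : ℂ, κ ≤ w.re → w.re ≤ 1 →
      ‖k1 w‖ ≤ (18 * Real.exp 1 * Cn * κ⁻¹ * B) * X ^ w.re * Real.exp (-w.im ^ 2 / 4) := by
    intro w h1 h2
    rw [hk1]
    simp only [norm_mul]
    have h3 := ker_bd hκ t hX (w := w) (h1.trans (le_abs_self _)) (abs_le.2 ⟨by linarith, h2⟩)
    have h4 : Real.exp (-w.im ^ 2 / 2) ≤ Real.exp (-w.im ^ 2 / 4) :=
      Real.exp_le_exp.2 (by nlinarith [sq_nonneg w.im])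
    have h5 : 18 * Real.exp 1 / κ ≤ 18 * Real.exp 1 * Cn * κ⁻¹ * B := by
      rw [div_eq_mul_inv]
      have h6 : 1 ≤ Cn * B := by nlinarith
      have h7 : 0 ≤ 18 * Real.exp 1 * κ⁻¹ := by positivity
      nlinarith
    calc ‖((1 / (2 * Real.pi) : ℝ) : ℂ)‖ * ‖ker t X w‖ ≤ 1 * ‖ker t X w‖ :=
          mul_le_mul_of_nonneg_right hp (norm_nonneg _)
      _ = ‖ker t X w‖ := one_mul _
      _ ≤ (18 * Real.exp 1 / κ) * X ^ w.re * Real.exp (-w.im ^ 2 / 2) := h3
      _ ≤ _ := mul_le_mul (mul_le_mul_of_nonneg_right h5 (by positivity)) h4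
          (Real.exp_pos _).le (by positivity)
  have hk2d : ∀ w : ℂ, κ ≤ w.re → w.re ≤ 1 → DifferentiableAt ℂ k2 w := by
    intro w h1 _
    rw [hk2]
    have er : (1 - s₀ + w).re = 1 / 2 + w.re := by
      rw [Complex.add_re, Complex.sub_re, hre]
      simp
      norm_num
    have h3 : DifferentiableAt ℂ G (1 - s₀ + w) := hG _ (by rw [er]; linarith)
    have h4 : DifferentiableAt ℂ (fun w => 1 - s₀ + w) w := by fun_prop
    have h5 : DifferentiableAt ℂ (ker t X) (-w) := ker_diff t hX (neg_ne_zero.2 (wne w h1))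
    have h6 : DifferentiableAt ℂ (fun w => ker t X (-w)) w :=
      DifferentiableAt.comp w h5 differentiableAt_id.neg
    exact ((DifferentiableAt.comp w h3 h4).mul h6).const_mul _
  have hk2b : ∀ w : ℂ, κ ≤ w.re → w.re ≤ 1 →
      ‖k2 w‖ ≤ (18 * Real.exp 1 * Cn * κ⁻¹ * B) * X ^ w.re * Real.exp (-w.im ^ 2 / 4) := by
    intro w h1 h2
    rw [hk2]
    simp only [norm_mul, norm_neg]
    have er : (1 - s₀ + w).re = 1 / 2 + w.re := by
      rw [Complex.add_re, Complex.sub_re, hre]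
      simp
      norm_num
    have ei : (1 - s₀ + w).im = -t + w.im := by
      rw [Complex.add_im, Complex.sub_im, him]
      simp
    have h3 := hGb (1 - s₀ + w) (by rw [er]; linarith) (by rw [er]; linarith)
    rw [er, ei] at h3
    have e1 : 2 * (1 / 2 + w.re - 1 / 2) = 2 * w.re := by ring
    have e2 : -t + w.im + t = w.im := by ring
    rw [e1, e2] at h3
    have h4 := ker_bd hκ t hX (w := -w) (by
        rw [Complex.neg_re, abs_neg]
        exact h1.trans (le_abs_self _)) (by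
        rw [Complex.neg_re, abs_neg]
        exact abs_le.2 ⟨by linarith, h2⟩)
    rw [Complex.neg_re, Complex.neg_im, neg_sq] at h4
    have h5 := hCn w.im
    have h6 : X ^ (2 * w.re) * X ^ (-w.re) = X ^ w.re := by
      rw [← Real.rpow_add hX]
      congr 1
      ring
    calc ‖((1 / (2 * Real.pi) : ℝ) : ℂ)‖ * (‖G (1 - s₀ + w)‖ * ‖ker t X (-w)‖)
        ≤ 1 * (‖G (1 - s₀ + w)‖ * ‖ker t X (-w)‖) :=
          mul_le_mul_of_nonneg_right hp (by positivity)
      _ = ‖G (1 - s₀ + w)‖ * ‖ker t X (-w)‖ := one_mul _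
      _ ≤ (B * X ^ (2 * w.re) * (1 + |w.im|) ^ n) *
            ((18 * Real.exp 1 / κ) * X ^ (-w.re) * Real.exp (-w.im ^ 2 / 2)) :=
          mul_le_mul h3 h4 (norm_nonneg _) (by positivity)
      _ = (B * (18 * Real.exp 1 / κ) * (X ^ (2 * w.re) * X ^ (-w.re))) *
            ((1 + |w.im|) ^ n * Real.exp (-w.im ^ 2 / 2)) := by ring
      _ = (B * (18 * Real.exp 1 / κ) * X ^ w.re) *
            ((1 + |w.im|) ^ n * Real.exp (-w.im ^ 2 / 2)) := by rw [h6]
      _ ≤ (B * (18 * Real.exp 1 / κ) * X ^ w.re) * (Cn * Real.exp (-w.im ^ 2 / 4)) :=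
          mul_le_mul_of_nonneg_left h5 (by positivity)
      _ = _ := by rw [div_eq_mul_inv]; ring
  refine ⟨_, _, wt_of_ker hκ hκ1 hD hX hk1d hk1b, wt_of_ker hκ hκ1 hD hX hk2d hk2b, ?_⟩
  have c1 : Continuous fun v : ℝ => k1 (1 + v * I) := by
    have := line_cont hk1d 1 hκ1 le_rfl
    simpa using this
  have c2 : Continuous fun v : ℝ => k2 (1 + v * I) := by
    have := line_cont hk2d 1 hκ1 le_rfl
    simpa using this
  have d1 : ∀ v : ℝ, ‖k1 (1 + v * I)‖ ≤
      ((18 * Real.exp 1 * Cn * κ⁻¹ * B) * X) * Real.exp (-v ^ 2 / 4) := by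
    intro v
    have h := hk1b (1 + v * I) (by simpa using hκ1) (by simp)
    simpa using h
  have d2 : ∀ v : ℝ, ‖k2 (1 + v * I)‖ ≤
      ((18 * Real.exp 1 * Cn * κ⁻¹ * B) * X) * Real.exp (-v ^ 2 / 4) := by
    intro v
    have h := hk2b (1 + v * I) (by simpa using hκ1) (by simp)
    simpa using h
  have w1 := swap_int a N hN hs32 AA (fun i => (hAA i).1) (fun v => k1 (1 + v * I)) c1 _ d1 s₀ hre
  have w2 := swap_int a' N hN hs32 AA (fun i => (hAA i).2) (fun v => k2 (1 + v * I)) c2 _ d2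
    (1 - s₀) (by rw [Complex.sub_re, hre]; norm_num)
  have j1 : ((1 / (2 * Real.pi) : ℝ) : ℂ) * ∫ v : ℝ,
      (∑' i, a i * (N i : ℂ) ^ (-(s₀ + (1 + v * I)))) * ker t X (1 + v * I) =
      ∫ v : ℝ, (∑' i, a i * (N i : ℂ) ^ (-(s₀ + (1 + v * I)))) * k1 (1 + v * I) := by
    rw [← integral_const_mul]
    refine integral_congr_ae (Eventually.of_forall fun v => ?_)
    simp only [hk1]
    ring
  have j2 : -(((1 / (2 * Real.pi) : ℝ) : ℂ) * ∫ v : ℝ,
      (∑' i, a' i * (N i : ℂ) ^ (-(1 - s₀ + (1 + v * I)))) *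
        (G (1 - s₀ + (1 + v * I)) * ker t X (-(1 + v * I)))) =
      ∫ v : ℝ, (∑' i, a' i * (N i : ℂ) ^ (-(1 - s₀ + (1 + v * I)))) * k2 (1 + v * I) := by
    rw [← neg_mul, ← integral_const_mul]
    refine integral_congr_ae (Eventually.of_forall fun v => ?_)
    simp only [hk2]
    ring
  rw [← hcon, sub_eq_add_neg, j1, j2, w1, w2]
  congr 1
  · refine tsum_congr fun i => ?_
    have e : (-(s₀ - 1 / 2) : ℂ) = -(t * I) := by rw [hs₀]; ring
    rw [e]
    ring
  · refine tsum_congr fun i => ?_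
    have e : (-(1 - s₀ - 1 / 2) : ℂ) = t * I := by rw [hs₀]; ring
    rw [e]
    ring

end Pool.Agent.H45.DW
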