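import Pool.Agent.H45.DW.AO1
import Pool.Agent.H39.DW.DI

/-!
# (AO) the average of the sum over the pairs
-/

set_option autoImplicit false
set_option linter.unusedSectionVars false

open NumberField NumberField.InfinitePlace NumberField.Units
  NumberField.Units.dirichletUnitTheorem MeasureTheory Set Filter Complex
open scoped nonZeroDivisors ENNReal

namespace Pool.Agent.H45.DW

open Pool.Agent.H25.HK Pool.Agent.H23.LB Pool.Agent.H23.LC Pool.Agent.H29.DW
open Pool.Agent.H61.GLB (countable_K yM_add yM_cont yM_unit eM mem_unit unit_mul_inv unit_inv_mul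
  unit_ne)
open Pool.Agent.H39.DW (rot_pos rot_conj th_sub)

/-- the average over the angle -/
noncomputable def Il (s r : Bool) (A : ℕ) (c : ℂ) (H : ℝ) (a ξ : ℂ) : ℝ≥0∞ :=
  ∫⁻ t in Icc (0 : ℝ) (2 * Real.pi),
    ENNReal.ofReal (amb r A c H (a * wq s r t) (ξ * (starRingEnd ℂ) (wq s r t)))

theorem Il_meas2 (s r : Bool) (A : ℕ) (c : ℂ) (H : ℝ) :
    Measurable (fun q : (ℂ × ℂ) × ℝ => ENNReal.ofReal (amb r A c H (q.1.1 * wq s r q.2)
      (q.1.2 * (starRingEnd ℂ) (wq s r q.2)))) := by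
  have h1 : Measurable (fun q : (ℂ × ℂ) × ℝ => wq s r q.2) :=
    (measurable_wq s r).comp measurable_snd
  have h2 : Measurable (fun q : (ℂ × ℂ) × ℝ => (starRingEnd ℂ) (wq s r q.2)) :=
    Complex.continuous_conj.measurable.comp h1
  have h3 : Measurable (fun q : (ℂ × ℂ) × ℝ => (q.1.1 * wq s r q.2,
      q.1.2 * (starRingEnd ℂ) (wq s r q.2))) :=
    ((measurable_fst.fst).mul h1).prodMk ((measurable_fst.snd).mul h2)
  exact ((measurable_amb r A c H).comp h3).ennreal_ofReal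

theorem Il_meas (s r : Bool) (A : ℕ) (c : ℂ) (H : ℝ) :
    Measurable (fun q : ℂ × ℂ => Il s r A c H q.1 q.2) :=
  (Il_meas2 s r A c H).lintegral_prod_right'

theorem Il_meas1 (s r : Bool) (A : ℕ) (c : ℂ) (H : ℝ) (a ξ : ℂ) :
    Measurable (fun t : ℝ => ENNReal.ofReal (amb r A c H (a * wq s r t)
      (ξ * (starRingEnd ℂ) (wq s r t)))) := by
  have h9 : Measurable (fun t : ℝ => (((a, ξ), t) : (ℂ × ℂ) × ℝ)) := measurable_prodMk_left
  have h10 := (Il_meas2 s r A c H).comp h9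
  exact h10

theorem Il_rot (s r : Bool) (A : ℕ) (cc : ℂ) (H : ℝ) (a ξ c : ℂ) (hc : ‖c‖ = 1) (hr : Rl r c) :
    Il s r A cc H (a * (starRingEnd ℂ) c) (ξ * c) = Il s r A cc H a ξ := by
  unfold Il
  set G : ℂ → ℝ≥0∞ := fun u => ENNReal.ofReal (amb r A cc H (a * u) (ξ * (starRingEnd ℂ) u)) with hG
  have hr' : Rl r ((starRingEnd ℂ) c) := fun h => by
    rw [Complex.conj_im, hr h, neg_zero]
  have hr1 : Rl r (1 : ℂ) := fun h => Complex.one_im
  have e0 : ∀ t : ℝ, ENNReal.ofReal (amb r A cc H (a * (starRingEnd ℂ) c * wq s r t)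
      (ξ * c * (starRingEnd ℂ) (wq s r t))) = G ((starRingEnd ℂ) c * wq s r t) := by
    intro t
    rw [hG]
    simp only [map_mul, Complex.conj_conj, mul_assoc]
  have e1 : ∀ t : ℝ, ENNReal.ofReal (amb r A cc H (a * wq s r t)
      (ξ * (starRingEnd ℂ) (wq s r t))) = G (1 * wq s r t) := by
    intro t
    rw [hG]
    simp only [one_mul]
  simp_rw [e0, e1]
  have e2 : ∫⁻ t in Icc (0 : ℝ) (2 * Real.pi), G ((starRingEnd ℂ) c * aq r t) =
      ∫⁻ t in Icc (0 : ℝ) (2 * Real.pi), G (1 * aq r t) := by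
    rw [rot_pos G r _ hr', rot_pos G r _ hr1]
    simp [hc]
  cases s
  · simp only [wq, Bool.false_eq_true, if_false]
    rw [rot_conj G r ((starRingEnd ℂ) c), rot_conj G r 1]
    exact e2
  · simp only [wq, if_true]
    exact e2

section NF

variable {K : Type} [Field K] [NumberField K]

theorem ang_int (A : ℕ) (cp : InfinitePlace K → ℂ) (H : InfinitePlace K → ℝ) (hH : ∀ v, 0 < H v)
    (s : Bool) (h y' : K) (y : InfinitePlace K → ℝ) :
    ∫⁻ θ in An K, ENNReal.ofReal (Amb A cp H h y' y (om s θ)) =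
      ∏ v, Il s (rv v) A (cp v) (H v) (av y h v) (av (-y) y' v) := by
  have h1 : ∀ θ : InfinitePlace K → ℝ, ENNReal.ofReal (Amb A cp H h y' y (om s θ)) =
      ∏ v, (fun v t => ENNReal.ofReal (amb (rv v) A (cp v) (H v) (av y h v * wq s (rv v) t)
        (av (-y) y' v * (starRingEnd ℂ) (wq s (rv v) t)))) v (θ v) := by
    intro θ
    unfold Amb
    rw [ENNReal.ofReal_prod_of_nonneg fun v _ => amb_nonneg _ _ _ (hH v) _ _]
    refine Finset.prod_congr rfl fun v _ => ?_
    unfold wv av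
    simp only [om_eq]
  rw [lintegral_congr h1]
  unfold An
  exact lintegral_box_prod (fun _ => Icc (0 : ℝ) (2 * Real.pi)) _ (fun v => Il_meas1 _ _ _ _ _ _ _)

theorem Amb_meas (A : ℕ) (cp : InfinitePlace K → ℂ) (H : InfinitePlace K → ℝ)
    (s : Bool) (h y' : K) (y : InfinitePlace K → ℝ) :
    Measurable (fun θ : InfinitePlace K → ℝ => ENNReal.ofReal (Amb A cp H h y' y (om s θ))) := by
  refine Measurable.ennreal_ofReal ?_
  unfold Amb
  refine Finset.measurable_fun_prod _ fun v _ => ?_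
  have h1 : Measurable (fun θ : InfinitePlace K → ℝ => om s θ v) := by
    simp only [om_eq]
    exact (measurable_wq s (rv v)).comp (measurable_pi_apply v)
  have h2 : Measurable (fun θ : InfinitePlace K → ℝ => wv v h y (om s θ)) := by
    unfold wv
    exact h1.const_mul _
  have h3 : Measurable (fun θ : InfinitePlace K → ℝ =>
      wv v y' (-y) (fun v => (starRingEnd ℂ) (om s θ v))) := by
    unfold wv
    exact (Complex.continuous_conj.measurable.comp h1).const_mul _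
  exact (measurable_amb (rv v) A (cp v) (H v)).comp (h2.prodMk h3)

/-- the average over the angles of the sum over the pairs -/
noncomputable def gA (A : ℕ) (L₁ L₂ M : FI K) (cp : InfinitePlace K → ℂ)
    (H : InfinitePlace K → ℝ) (s : Bool) (q : logSpace K × ℝ) : ℝ≥0∞ :=
  ∑' h : {h : K // h ∈ L₁ ∧ h ≠ 0}, ∑' y' : {y' : K // y' ∈ L₂},
    ∏ v, Il s (rv v) A (cp v) (H v) (av (yM K M q.2 q.1) (h : K) v)
      (av (-yM K M q.2 q.1) (y' : K) v)

theorem gA_eq (A : ℕ) (L₁ L₂ M : FI K) (cp : InfinitePlace K → ℂ)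
    (H : InfinitePlace K → ℝ) (hH : ∀ v, 0 < H v) (s : Bool) (z : logSpace K) (τ : ℝ) :
    ∫⁻ θ in An K, ∑' h : {h : K // h ∈ L₁ ∧ h ≠ 0}, ∑' y' : {y' : K // y' ∈ L₂},
        ENNReal.ofReal (Amb A cp H h y' (yM K M τ z) (om s θ)) = gA A L₁ L₂ M cp H s (z, τ) := by
  have := countable_K K
  rw [lintegral_tsum fun h => (Measurable.tsum fun y' => Amb_meas A cp H s _ _ _).aemeasurable]
  refine tsum_congr fun h => ?_
  rw [lintegral_tsum fun y' => (Amb_meas A cp H s _ _ _).aemeasurable]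
  refine tsum_congr fun y' => ?_
  exact ang_int A cp H hH s _ _ _

theorem av_cont (M : FI K) (x : K) (v : InfinitePlace K) :
    Continuous (fun q : logSpace K × ℝ => av (yM K M q.2 q.1) x v) := by
  have h1 : Continuous (fun q : logSpace K × ℝ => yM K M q.2 q.1 v) :=
    (continuous_apply v).comp (yM_cont K M)
  unfold av
  exact continuous_const.mul (Complex.continuous_ofReal.comp
    (Real.continuous_exp.comp (h1.div_const 2)))

theorem av_cont' (M : FI K) (x : K) (v : InfinitePlace K) :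
    Continuous (fun q : logSpace K × ℝ => av (-yM K M q.2 q.1) x v) := by
  have h1 : Continuous (fun q : logSpace K × ℝ => yM K M q.2 q.1 v) :=
    (continuous_apply v).comp (yM_cont K M)
  unfold av
  simp only [Pi.neg_apply]
  exact continuous_const.mul (Complex.continuous_ofReal.comp
    (Real.continuous_exp.comp (h1.neg.div_const 2)))

open scoped Classical in
theorem term_meas (A : ℕ) (M : FI K) (cp : InfinitePlace K → ℂ)
    (H : InfinitePlace K → ℝ) (s : Bool) (h y' : K) :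
    Measurable (fun q : logSpace K × ℝ => ∏ v, Il s (rv v) A (cp v) (H v)
      (av (yM K M q.2 q.1) h v) (av (-yM K M q.2 q.1) y' v)) := by
  refine Finset.measurable_fun_prod _ fun v _ => ?_
  have h1 : Measurable (fun q : logSpace K × ℝ => (av (yM K M q.2 q.1) h v,
      av (-yM K M q.2 q.1) y' v)) :=
    (av_cont M h v).measurable.prodMk (av_cont' M y' v).measurable
  have h2 := (Il_meas s (rv v) A (cp v) (H v)).comp h1
  exact h2

open scoped Classical in
theorem gA_meas (A : ℕ) (L₁ L₂ M : FI K) (cp : InfinitePlace K → ℂ)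
    (H : InfinitePlace K → ℝ) (s : Bool) : Measurable (gA A L₁ L₂ M cp H s) := by
  have := countable_K K
  unfold gA
  exact Measurable.tsum fun h => Measurable.tsum fun y' => term_meas A M cp H s _ _

/-- multiplication with a unit on the nonzero elements -/
def eN (L : FI K) (u : (𝓞 K)ˣ) : {x : K // x ∈ L ∧ x ≠ 0} ≃ {x : K // x ∈ L ∧ x ≠ 0} where
  toFun x := ⟨(u : K) * x.1, mem_unit K L u x.2.1, mul_ne_zero (unit_ne K u) x.2.2⟩
  invFun x := ⟨((u⁻¹ : (𝓞 K)ˣ) : K) * x.1, mem_unit K L u⁻¹ x.2.1,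
    mul_ne_zero (unit_ne K u⁻¹) x.2.2⟩
  left_inv x := Subtype.ext (unit_inv_mul K u x.1)
  right_inv x := Subtype.ext (unit_mul_inv K u x.1)

open scoped Classical in
theorem gA_unit (A : ℕ) (L₁ L₂ M : FI K) (cp : InfinitePlace K → ℂ)
    (H : InfinitePlace K → ℝ) (s : Bool) (z : logSpace K) (τ : ℝ) (l : logSpace K)
    (hl : l ∈ unitLattice K) :
    gA A L₁ L₂ M cp H s (z + l, τ) = gA A L₁ L₂ M cp H s (z, τ) := by
  obtain ⟨u', -, rfl⟩ := hl
  change gA A L₁ L₂ M cp H s (z + logEmbedding K (Additive.ofMul (Additive.toMul u')), τ) = _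
  set u : (𝓞 K)ˣ := Additive.toMul u' with hu
  unfold gA
  rw [← (eN L₁ u).tsum_eq (fun h : {h : K // h ∈ L₁ ∧ h ≠ 0} => ∑' y' : {y' : K // y' ∈ L₂},
    ∏ v, Il s (rv v) A (cp v) (H v) (av (yM K M τ z) (h : K) v) (av (-yM K M τ z) (y' : K) v))]
  refine tsum_congr fun h => ?_
  rw [← (eM K L₂ u⁻¹).tsum_eq (fun y' : {y' : K // y' ∈ L₂} =>
    ∏ v, Il s (rv v) A (cp v) (H v) (av (yM K M τ z) ((eN L₁ u h : {h : K // h ∈ L₁ ∧ h ≠ 0}) : K) v)
      (av (-yM K M τ z) (y' : K) v))]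
  refine tsum_congr fun y' => ?_
  refine Finset.prod_congr rfl fun v _ => ?_
  have h2 : v (u : K) ≠ 0 := by
    rw [Ne, map_eq_zero]
    exact unit_ne K u
  have h3 : 0 < v (u : K) := lt_of_le_of_ne (apply_nonneg _ _) (Ne.symm h2)
  have hC : ((v (u : K) : ℝ) : ℂ) ≠ 0 := by exact_mod_cast h2
  have hE : v.embedding (u : K) ≠ 0 := by
    rw [Ne, map_eq_zero]
    exact unit_ne K u
  set c : ℂ := v.embedding (u : K) / ((v (u : K) : ℝ) : ℂ) with hc
  have hcn : ‖c‖ = 1 := by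
    rw [hc, norm_div, InfinitePlace.norm_embedding_eq, Complex.norm_real,
      Real.norm_of_nonneg h3.le, div_self h2]
  have hcr : Rl (rv v) c := by
    intro hv
    have h5 := Rl_av (fun _ => 0) (u : K) v hv
    unfold av at h5
    simp only [zero_div, Real.exp_zero, ofReal_one, mul_one] at h5
    rw [hc, Complex.div_ofReal_im, h5, zero_div]
  have hcc : (starRingEnd ℂ) c * c = 1 := by
    rw [← Complex.normSq_eq_conj_mul_self, Complex.normSq_eq_norm_sq, hcn]
    simp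
  have e1 : av (yM K M τ (z + logEmbedding K (Additive.ofMul u))) (h : K) v =
      av (yM K M τ z) ((u : K) * (h : K)) v * (starRingEnd ℂ) c := by
    unfold av
    rw [yM_unit, map_mul, add_div, mul_div_cancel_left₀ _ two_ne_zero, Real.exp_add,
      Real.exp_log h3]
    have h6 : v.embedding (u : K) = c * ((v (u : K) : ℝ) : ℂ) := by
      rw [hc, div_mul_cancel₀ _ hC]
    rw [h6]
    push_cast
    linear_combination (-(((v (u : K) : ℝ) : ℂ) * v.embedding (h : K) *
      cexp (yM K M τ z v / 2))) * hcc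
  have e2 : av (-yM K M τ (z + logEmbedding K (Additive.ofMul u))) (y' : K) v =
      av (-yM K M τ z) (((u⁻¹ : (𝓞 K)ˣ) : K) * (y' : K)) v * c := by
    unfold av
    simp only [Pi.neg_apply]
    rw [yM_unit, map_mul, show -(yM K M τ z v + 2 * Real.log (v (u : K))) / 2 =
      -yM K M τ z v / 2 + -Real.log (v (u : K)) by ring, Real.exp_add, Real.exp_neg,
      Real.exp_log h3]
    have h7 : v.embedding ((u⁻¹ : (𝓞 K)ˣ) : K) = (v.embedding (u : K))⁻¹ := by
      have h8 : ((u⁻¹ : (𝓞 K)ˣ) : K) * (u : K) = 1 := by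
        have := unit_inv_mul K u 1
        rwa [mul_one] at this
      have h9 := congrArg v.embedding h8
      rw [map_mul, map_one] at h9
      exact eq_inv_of_mul_eq_one_left h9
    rw [h7, hc]
    push_cast
    field_simp
  change Il s (rv v) A (cp v) (H v)
      (av (yM K M τ (z + logEmbedding K (Additive.ofMul u))) (h : K) v)
      (av (-yM K M τ (z + logEmbedding K (Additive.ofMul u))) (y' : K) v) =
    Il s (rv v) A (cp v) (H v) (av (yM K M τ z) ((u : K) * (h : K)) v)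
      (av (-yM K M τ z) (((u⁻¹ : (𝓞 K)ˣ) : K) * (y' : K)) v)
  rw [e1, e2, Il_rot _ _ _ _ _ _ _ _ hcn hcr]

/-! ### Theta functions -/

theorem th_sub' (hTH : T_TH) (L : FI K) (hL : L ≠ 0) (y : InfinitePlace K → ℝ) :
    ENNReal.ofReal (th K L y - 1) = ∑' x : {x : K // x ∈ L ∧ x ≠ 0},
      ENNReal.ofReal (Real.exp (-Real.pi * qK K y x.1)) := by
  classical
  rw [th_sub hTH L hL y]
  have hinj : Function.Injective (fun x : {x : K // x ∈ L ∧ x ≠ 0} =>
      (⟨x.1, x.2.1⟩ : {x : K // x ∈ L})) := by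
    intro x x' h
    exact Subtype.ext (congrArg (fun t : {x : K // x ∈ L} => t.1) h)
  rw [← hinj.tsum_eq]
  · refine tsum_congr fun x => ?_
    rw [if_neg x.2.2]
  · intro x hx
    rw [Function.mem_support] at hx
    by_cases h : x.1 = 0
    · rw [if_pos h] at hx
      exact absurd rfl hx
    · exact ⟨⟨x.1, x.2, h⟩, rfl⟩

theorem th_full (hTH : T_TH) (L : FI K) (hL : L ≠ 0) (y : InfinitePlace K → ℝ) :
    ENNReal.ofReal (th K L y) = ∑' x : {x : K // x ∈ L},
      ENNReal.ofReal (Real.exp (-Real.pi * qK K y x.1)) := by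
  unfold th
  rw [ENNReal.ofReal_tsum_of_nonneg (fun _ => (Real.exp_pos _).le) (hTH K L hL y).1]

theorem th_pair (hTH : T_TH) (L₁ L₂ : FI K) (h₁ : L₁ ≠ 0) (h₂ : L₂ ≠ 0)
    (y₁ y₂ : InfinitePlace K → ℝ) :
    ENNReal.ofReal ((th K L₁ y₁ - 1) * th K L₂ y₂) =
      ∑' h : {h : K // h ∈ L₁ ∧ h ≠ 0}, ∑' y' : {y' : K // y' ∈ L₂},
        (ENNReal.ofReal (Real.exp (-Real.pi * qK K y₁ h)) *
          ENNReal.ofReal (Real.exp (-Real.pi * qK K y₂ y'))) := by
  have h0 : 0 ≤ th K L₂ y₂ := tsum_nonneg fun _ => (Real.exp_pos _).le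
  rw [ENNReal.ofReal_mul' h0, th_sub' hTH L₁ h₁, th_full hTH L₂ h₂, ← ENNReal.tsum_mul_right]
  refine tsum_congr fun h => ?_
  rw [← ENNReal.tsum_mul_left]

open scoped Classical in
theorem th_pair_meas (hTH : T_TH) (L₁ L₂ M : FI K) (h₁ : L₁ ≠ 0) (h₂ : L₂ ≠ 0)
    (a b : InfinitePlace K → ℝ) : Measurable (fun q : logSpace K × ℝ =>
      ENNReal.ofReal ((th K L₁ (fun v => yM K M q.2 q.1 v - a v) - 1) *
        th K L₂ (fun v => -yM K M q.2 q.1 v - b v))) := by
  have := countable_K K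
  simp only [th_pair hTH L₁ L₂ h₁ h₂]
  have h1 : ∀ v : InfinitePlace K, Continuous (fun q : logSpace K × ℝ => yM K M q.2 q.1 v) :=
    fun v => (continuous_apply v).comp (yM_cont K M)
  refine Measurable.tsum fun h => Measurable.tsum fun y' => ?_
  have h2 : Measurable (fun q : logSpace K × ℝ => ENNReal.ofReal (Real.exp (-Real.pi *
      qK K (fun v => yM K M q.2 q.1 v - a v) (h : K)))) := by
    refine Continuous.measurable ?_ |>.ennreal_ofReal
    unfold qK
    fun_prop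
  have h3 : Measurable (fun q : logSpace K × ℝ => ENNReal.ofReal (Real.exp (-Real.pi *
      qK K (fun v => -yM K M q.2 q.1 v - b v) (y' : K)))) := by
    refine Continuous.measurable ?_ |>.ennreal_ofReal
    unfold qK
    fun_prop
  exact h2.mul h3

end NF

open scoped Classical in
/-- (AO) the average of the sum over the pairs -/
theorem pf_AO (hTH : T_TH) (hAVG : V_AVG) (hJB : V_JB) (hLA : V_LA) (hGS : V_GS) : V_AO := by
  intro n A hn hA
  obtain ⟨C₁, hC₁, h₁⟩ := pair_avg hJB hLA hGS n A hn hA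
  obtain ⟨C₂, hC₂, h₂⟩ := hAVG n hn
  refine ⟨C₂ * C₁, by positivity, ?_⟩
  intro K _ _ hK L₁ L₂ M cp H s τ₁ hL₁ hL₂ hM hP
  have hcK := countable_K K
  have hH : ∀ v, 0 < H v := fun v => (hP.par v).pos
  have e1 : ∀ (z : logSpace K) (τ : ℝ), ∫⁻ θ in An K,
      ∑' h : {h : K // h ∈ L₁ ∧ h ≠ 0}, ∑' y' : {y' : K // y' ∈ L₂},
        ENNReal.ofReal (Amb A cp H h y' (yM K M τ z) (om s θ)) = gA A L₁ L₂ M cp H s (z, τ) :=
    fun z τ => gA_eq A L₁ L₂ M cp H hH s z τ
  simp_rw [e1]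
  refine (h₂ K hK (gA A L₁ L₂ M cp H s) (gA_meas A L₁ L₂ M cp H s)
    (fun z l hl τ => gA_unit A L₁ L₂ M cp H s z τ l hl) τ₁).trans ?_
  rw [ENNReal.ofReal_mul hC₂, mul_assoc]
  refine mul_le_mul' le_rfl ?_
  -- the theta functions
  set T : (InfinitePlace K → ℕ) → ℕ → logSpace K × ℝ → ℝ≥0∞ := fun i j q => ENNReal.ofReal
    ((th K L₁ (fun v => yM K M q.2 q.1 v - 2 * Real.log (2 ^ (i v + j) / H v ^ 2)) - 1) *
      th K L₂ (fun v => -yM K M q.2 q.1 v - 2 * Real.log (2 ^ (i v + j) * H v))) with hT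
  have hTm : ∀ i j, Measurable (T i j) := fun i j =>
    th_pair_meas hTH L₁ L₂ M hL₁ hL₂ _ _
  have e2 : ∀ (z : logSpace K) (τ : ℝ), ∫⁻ b in BX K n, gA A L₁ L₂ M cp H s (z + b.1, τ + b.2) ≤
      ENNReal.ofReal C₁ * ∑ i ∈ Fintype.piFinset (fun v => Finset.range (nH (H v) + 1)),
        ENNReal.ofReal (∏ v : InfinitePlace K, (2 : ℝ) ^ (-((i v * v.mult : ℕ) : ℝ))) *
        ∑' j : ℕ, ENNReal.ofReal ((2 : ℝ) ^ (-((A * j : ℕ) : ℝ))) * T i j (z, τ) := by
    intro z τ
    have hsh : Measurable (fun b : logSpace K × ℝ => ((z + b.1, τ + b.2) : logSpace K × ℝ)) := by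
      fun_prop
    have hm : ∀ h y' : K, Measurable (fun b : logSpace K × ℝ =>
        ∏ v, Il s (rv v) A (cp v) (H v) (av (yM K M (τ + b.2) (z + b.1)) h v)
          (av (-yM K M (τ + b.2) (z + b.1)) y' v)) := fun h y' => by
      have := (term_meas A M cp H s h y').comp hsh
      exact this
    have e3 : ∫⁻ b in BX K n, gA A L₁ L₂ M cp H s (z + b.1, τ + b.2) =
        ∑' h : {h : K // h ∈ L₁ ∧ h ≠ 0}, ∑' y' : {y' : K // y' ∈ L₂},
          ∫⁻ b in BX K n, ∏ v, Il s (rv v) A (cp v) (H v)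
            (av (yM K M (τ + b.2) (z + b.1)) (h : K) v)
            (av (-yM K M (τ + b.2) (z + b.1)) (y' : K) v) := by
      unfold gA
      rw [lintegral_tsum fun h => (Measurable.tsum fun y' => hm _ _).aemeasurable]
      refine tsum_congr fun h => ?_
      rw [lintegral_tsum fun y' => (hm _ _).aemeasurable]
    rw [e3]
    have e4 : ∀ (h : {h : K // h ∈ L₁ ∧ h ≠ 0}) (y' : {y' : K // y' ∈ L₂}),
        ∫⁻ b in BX K n, ∏ v, Il s (rv v) A (cp v) (H v)
            (av (yM K M (τ + b.2) (z + b.1)) (h : K) v)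
            (av (-yM K M (τ + b.2) (z + b.1)) (y' : K) v) ≤
        ENNReal.ofReal C₁ * ∑ i ∈ Fintype.piFinset (fun v => Finset.range (nH (H v) + 1)),
          ENNReal.ofReal (∏ v : InfinitePlace K, (2 : ℝ) ^ (-((i v * v.mult : ℕ) : ℝ))) *
          ∑' j : ℕ, ENNReal.ofReal ((2 : ℝ) ^ (-((A * j : ℕ) : ℝ))) *
            (ENNReal.ofReal (Real.exp (-Real.pi * qK K (fun v => yM K M τ z v -
              2 * Real.log (2 ^ (i v + j) / H v ^ 2)) (h : K))) *
            ENNReal.ofReal (Real.exp (-Real.pi * qK K (fun v => -yM K M τ z v -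
              2 * Real.log (2 ^ (i v + j) * H v)) (y' : K)))) := by
      intro h y'
      refine le_trans (le_of_eq (lintegral_congr fun b => ?_))
        (h₁ K hK cp H s h y' (yM K M τ z) hP)
      rw [← ang_int A cp H hH s]
      have e5 : yM K M (τ + b.2) (z + b.1) = fun v => yM K M τ z v + yc K b.2 b.1 v := by
        funext v
        exact yM_add K M τ b.2 z b.1 v
      rw [e5]
    refine (ENNReal.tsum_le_tsum fun h => ENNReal.tsum_le_tsum fun y' => e4 h y').trans ?_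
    simp_rw [ENNReal.tsum_mul_left]
    refine mul_le_mul' le_rfl ?_
    -- interchange the sums
    have e6 : ∀ h : {h : K // h ∈ L₁ ∧ h ≠ 0}, ∑' y' : {y' : K // y' ∈ L₂},
        ∑ i ∈ Fintype.piFinset (fun v => Finset.range (nH (H v) + 1)),
          ENNReal.ofReal (∏ v : InfinitePlace K, (2 : ℝ) ^ (-((i v * v.mult : ℕ) : ℝ))) *
          ∑' j : ℕ, ENNReal.ofReal ((2 : ℝ) ^ (-((A * j : ℕ) : ℝ))) *
            (ENNReal.ofReal (Real.exp (-Real.pi * qK K (fun v => yM K M τ z v -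
              2 * Real.log (2 ^ (i v + j) / H v ^ 2)) (h : K))) *
            ENNReal.ofReal (Real.exp (-Real.pi * qK K (fun v => -yM K M τ z v -
              2 * Real.log (2 ^ (i v + j) * H v)) (y' : K)))) =
        ∑ i ∈ Fintype.piFinset (fun v => Finset.range (nH (H v) + 1)),
          ENNReal.ofReal (∏ v : InfinitePlace K, (2 : ℝ) ^ (-((i v * v.mult : ℕ) : ℝ))) *
          ∑' j : ℕ, ENNReal.ofReal ((2 : ℝ) ^ (-((A * j : ℕ) : ℝ))) *
            ∑' y' : {y' : K // y' ∈ L₂},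
            (ENNReal.ofReal (Real.exp (-Real.pi * qK K (fun v => yM K M τ z v -
              2 * Real.log (2 ^ (i v + j) / H v ^ 2)) (h : K))) *
            ENNReal.ofReal (Real.exp (-Real.pi * qK K (fun v => -yM K M τ z v -
              2 * Real.log (2 ^ (i v + j) * H v)) (y' : K)))) := by
      intro h
      rw [Summable.tsum_finsetSum fun i _ => ENNReal.summable]
      refine Finset.sum_congr rfl fun i _ => ?_
      rw [ENNReal.tsum_mul_left, ENNReal.tsum_comm]
      simp_rw [ENNReal.tsum_mul_left]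
    simp_rw [e6]
    rw [Summable.tsum_finsetSum fun i _ => ENNReal.summable]
    refine Finset.sum_le_sum fun i _ => ?_
    rw [ENNReal.tsum_mul_left, ENNReal.tsum_comm]
    refine mul_le_mul' le_rfl (le_of_eq (tsum_congr fun j => ?_))
    rw [ENNReal.tsum_mul_left, hT]
    simp only
    rw [th_pair hTH L₁ L₂ hL₁ hL₂]
  refine (lintegral_mono fun z => lintegral_mono fun τ => e2 z τ).trans ?_
  -- integrate
  have m1 : ∀ i j, Measurable (fun q : logSpace K × ℝ =>
      ENNReal.ofReal ((2 : ℝ) ^ (-((A * j : ℕ) : ℝ))) * T i j q) := fun i j =>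
    (hTm i j).const_mul _
  have m2 : ∀ i, Measurable (fun q : logSpace K × ℝ =>
      ∑' j : ℕ, ENNReal.ofReal ((2 : ℝ) ^ (-((A * j : ℕ) : ℝ))) * T i j q) := fun i =>
    Measurable.tsum fun j => m1 i j
  have m3 : ∀ i : InfinitePlace K → ℕ, Measurable (fun q : logSpace K × ℝ =>
      ENNReal.ofReal (∏ v : InfinitePlace K, (2 : ℝ) ^ (-((i v * v.mult : ℕ) : ℝ))) *
        ∑' j : ℕ, ENNReal.ofReal ((2 : ℝ) ^ (-((A * j : ℕ) : ℝ))) * T i j q) := fun i =>
    (m2 i).const_mul _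
  have hsl : ∀ (f : logSpace K × ℝ → ℝ≥0∞), Measurable f → ∀ z, Measurable (fun τ => f (z, τ)) :=
    fun f hf z => hf.comp measurable_prodMk_left
  have hin : ∀ (f : logSpace K × ℝ → ℝ≥0∞), Measurable f → Measurable (fun z : logSpace K =>
      ∫⁻ τ in Icc (τ₁ - 1) (τ₁ + 2), f (z, τ)) := fun f hf => hf.lintegral_prod_right'
  have i1 : ∀ z : logSpace K, ∫⁻ τ in Icc (τ₁ - 1) (τ₁ + 2), ENNReal.ofReal C₁ *
      ∑ i ∈ Fintype.piFinset (fun v => Finset.range (nH (H v) + 1)),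
        ENNReal.ofReal (∏ v : InfinitePlace K, (2 : ℝ) ^ (-((i v * v.mult : ℕ) : ℝ))) *
        ∑' j : ℕ, ENNReal.ofReal ((2 : ℝ) ^ (-((A * j : ℕ) : ℝ))) * T i j (z, τ) =
      ENNReal.ofReal C₁ * ∑ i ∈ Fintype.piFinset (fun v => Finset.range (nH (H v) + 1)),
        ENNReal.ofReal (∏ v : InfinitePlace K, (2 : ℝ) ^ (-((i v * v.mult : ℕ) : ℝ))) *
        ∑' j : ℕ, ENNReal.ofReal ((2 : ℝ) ^ (-((A * j : ℕ) : ℝ))) *
          ∫⁻ τ in Icc (τ₁ - 1) (τ₁ + 2), T i j (z, τ) := by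
    intro z
    rw [lintegral_const_mul' _ _ ENNReal.ofReal_ne_top,
      lintegral_finsetSum _ fun i _ => hsl _ (m3 i) z]
    congr 1
    refine Finset.sum_congr rfl fun i _ => ?_
    rw [lintegral_const_mul' _ _ ENNReal.ofReal_ne_top,
      lintegral_tsum fun j => (hsl _ (m1 i j) z).aemeasurable]
    congr 1
    refine tsum_congr fun j => ?_
    rw [lintegral_const_mul' _ _ ENNReal.ofReal_ne_top]
  simp_rw [i1]
  have n1 : ∀ i j, Measurable (fun z : logSpace K =>
      ENNReal.ofReal ((2 : ℝ) ^ (-((A * j : ℕ) : ℝ))) *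
        ∫⁻ τ in Icc (τ₁ - 1) (τ₁ + 2), T i j (z, τ)) := fun i j =>
    (hin _ (hTm i j)).const_mul _
  have n3 : ∀ i : InfinitePlace K → ℕ, Measurable (fun z : logSpace K =>
      ENNReal.ofReal (∏ v : InfinitePlace K, (2 : ℝ) ^ (-((i v * v.mult : ℕ) : ℝ))) *
        ∑' j : ℕ, ENNReal.ofReal ((2 : ℝ) ^ (-((A * j : ℕ) : ℝ))) *
          ∫⁻ τ in Icc (τ₁ - 1) (τ₁ + 2), T i j (z, τ)) := fun i =>
    (Measurable.tsum fun j => n1 i j).const_mul _
  rw [lintegral_const_mul' _ _ ENNReal.ofReal_ne_top, lintegral_finsetSum _ fun i _ => n3 i]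
  refine mul_le_mul' le_rfl (le_of_eq ?_)
  refine Finset.sum_congr rfl fun i _ => ?_
  rw [lintegral_const_mul' _ _ ENNReal.ofReal_ne_top,
    lintegral_tsum fun j => (n1 i j).aemeasurable]
  congr 1
  refine tsum_congr fun j => ?_
  rw [lintegral_const_mul' _ _ ENNReal.ofReal_ne_top]

end Pool.Agent.H45.DW
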