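import Pool.Agent.H29.DW.Tools
import Pool.Agent.H61.GLB.TF

/-!
# The average of one pair
-/

set_option autoImplicit false
set_option linter.unusedSectionVars false

open NumberField NumberField.InfinitePlace NumberField.Units
  NumberField.Units.dirichletUnitTheorem MeasureTheory Set Filter Complex
open scoped nonZeroDivisors ENNReal

namespace Pool.Agent.H45.DW

open Pool.Agent.H25.HK Pool.Agent.H23.LB Pool.Agent.H23.LC Pool.Agent.H29.DW

/-! ### Products -/

theorem lmarginal_prod {ι : Type} [Fintype ι] [DecidableEq ι] (μ : ι → Measure ℝ)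
    [∀ i, SigmaFinite (μ i)] (f : ι → ℝ → ℝ≥0∞) (hf : ∀ i, Measurable (f i)) (s : Finset ι)
    (x : ι → ℝ) :
    (∫⋯∫⁻_s, (fun a : ι → ℝ => ∏ i, f i (a i)) ∂μ) x =
      (∏ i ∈ s, ∫⁻ t, f i t ∂μ i) * ∏ i ∈ Finset.univ \ s, f i (x i) := by
  have hPm : Measurable (fun a : ι → ℝ => ∏ i, f i (a i)) :=
    Finset.measurable_fun_prod _ fun i _ => (hf i).comp (measurable_pi_apply i)
  induction s using Finset.induction generalizing x with
  | empty => simp
  | insert j s hj ih =>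
    rw [lmarginal_insert _ hPm hj]
    have h1 : ∀ t : ℝ, (∫⋯∫⁻_s, (fun a : ι → ℝ => ∏ i, f i (a i)) ∂μ) (Function.update x j t) =
        f j t * ((∏ i ∈ s, ∫⁻ t, f i t ∂μ i) * ∏ i ∈ Finset.univ \ insert j s, f i (x i)) := by
      intro t
      rw [ih]
      have h2 : Finset.univ \ s = insert j (Finset.univ \ insert j s) := by
        ext i
        by_cases hi : i = j
        · subst hi
          simp [hj]
        · simp [hi]
      have h3 : j ∉ Finset.univ \ insert j s := by simp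
      rw [h2, Finset.prod_insert h3, Function.update_self]
      have h4 : ∏ i ∈ Finset.univ \ insert j s, f i (Function.update x j t i) =
          ∏ i ∈ Finset.univ \ insert j s, f i (x i) := by
        refine Finset.prod_congr rfl fun i hi => ?_
        have h5 : i ≠ j := fun h => h3 (h ▸ hi)
        rw [Function.update_of_ne h5]
      rw [h4]
      ring
    simp_rw [h1]
    rw [lintegral_mul_const _ (hf j), Finset.prod_insert hj]
    ring

theorem lintegral_pi_prod {ι : Type} [Fintype ι] (μ : ι → Measure ℝ)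
    [∀ i, SigmaFinite (μ i)] (f : ι → ℝ → ℝ≥0∞) (hf : ∀ i, Measurable (f i)) :
    ∫⁻ x, ∏ i, f i (x i) ∂(Measure.pi μ) = ∏ i, ∫⁻ t, f i t ∂μ i := by
  classical
  have h1 := lmarginal_prod μ f hf Finset.univ (fun _ => 0)
  rw [lmarginal_univ] at h1
  refine Eq.trans h1 ?_
  simp

theorem lintegral_box_prod {ι : Type} [Fintype ι] (s : ι → Set ℝ) (f : ι → ℝ → ℝ≥0∞)
    (hf : ∀ i, Measurable (f i)) :
    ∫⁻ x in Set.univ.pi s, ∏ i, f i (x i) = ∏ i, ∫⁻ t in s i, f i t := by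
  rw [volume_pi, Measure.restrict_pi_pi]
  exact lintegral_pi_prod _ f hf

/-! ### The angle -/

theorem refl_int (g : ℝ → ℝ≥0∞) :
    ∫⁻ θ in Icc (0 : ℝ) (2 * Real.pi), g (2 * Real.pi - θ) =
      ∫⁻ θ in Icc (0 : ℝ) (2 * Real.pi), g θ := by
  have h := (Measure.measurePreserving_sub_left (volume : Measure ℝ)
    (2 * Real.pi)).setLIntegral_comp_preimage_emb
    (MeasurableEquiv.subLeft (2 * Real.pi)).measurableEmbedding g (Icc (0 : ℝ) (2 * Real.pi))
  rw [← h]
  congr 1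
  congr 1
  ext θ
  simp only [mem_Icc, mem_preimage]
  constructor
  · rintro ⟨h1, h2⟩
    constructor <;> linarith
  · rintro ⟨h1, h2⟩
    constructor <;> linarith

theorem conj_int (r : Bool) (G : ℂ → ℝ≥0∞) :
    ∫⁻ θ in Icc (0 : ℝ) (2 * Real.pi), G ((starRingEnd ℂ) (aq r θ)) =
      ∫⁻ θ in Icc (0 : ℝ) (2 * Real.pi), G (aq r θ) := by
  cases r
  · rw [← refl_int (fun θ => G (aq false θ))]
    refine lintegral_congr fun θ => ?_
    congr 1
    unfold aq
    simp only [Bool.false_eq_true, if_false]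
    rw [← Complex.exp_conj]
    push_cast
    rw [sub_mul, Complex.exp_sub, Complex.exp_two_pi_mul_I, one_div, ← Complex.exp_neg]
    congr 1
    rw [map_mul, conj_ofReal, conj_I]
    ring
  · refine lintegral_congr fun θ => ?_
    congr 1
    exact Complex.conj_eq_iff_im.2 (aq_real θ)

theorem measurable_amb (r : Bool) (A : ℕ) (c : ℂ) (H : ℝ) :
    Measurable (fun p : ℂ × ℂ => amb r A c H p.1 p.2) := by
  unfold amb
  refine Measurable.ite ?_ ?_ measurable_const
  · exact measurableSet_le (by fun_prop) measurable_const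
  · fun_prop

/-- the angle or the conjugate angle -/
noncomputable def wq (s r : Bool) (θ : ℝ) : ℂ :=
  if s then aq r θ else (starRingEnd ℂ) (aq r θ)

theorem measurable_wq (s r : Bool) : Measurable (wq s r) := by
  unfold wq
  cases s
  · simp only [Bool.false_eq_true, if_false]
    exact Complex.continuous_conj.measurable.comp (measurable_aq r)
  · simp only [if_true]
    exact measurable_aq r

/-- the local integrand -/
noncomputable def Fl (s r : Bool) (A : ℕ) (c : ℂ) (H : ℝ) (a ξ : ℂ) (b θ : ℝ) : ℝ≥0∞ :=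
  ENNReal.ofReal (amb r A c H (a * ((Real.exp (b / 2) : ℝ) : ℂ) * wq s r θ)
    (ξ * ((Real.exp (-b / 2) : ℝ) : ℂ) * (starRingEnd ℂ) (wq s r θ)))

theorem measurable_Fl (s r : Bool) (A : ℕ) (c : ℂ) (H : ℝ) (a ξ : ℂ) :
    Measurable (fun p : ℝ × ℝ => Fl s r A c H a ξ p.1 p.2) := by
  unfold Fl
  refine ENNReal.measurable_ofReal.comp ((measurable_amb r A c H).comp (Measurable.prodMk ?_ ?_))
  · have : Measurable (fun p : ℝ × ℝ => wq s r p.2) := (measurable_wq s r).comp measurable_snd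
    have h2 : Measurable (fun p : ℝ × ℝ => ((Real.exp (p.1 / 2) : ℝ) : ℂ)) := by fun_prop
    exact (h2.const_mul a).mul this
  · have : Measurable (fun p : ℝ × ℝ => (starRingEnd ℂ) (wq s r p.2)) :=
      Complex.continuous_conj.measurable.comp ((measurable_wq s r).comp measurable_snd)
    have h2 : Measurable (fun p : ℝ × ℝ => ((Real.exp (-p.1 / 2) : ℝ) : ℂ)) := by fun_prop
    exact (h2.const_mul ξ).mul this

/-- the local average -/
theorem loc_avg (hLA : V_LA) (n A : ℕ) (hn : 0 < n) (hA : 3 ≤ A) : ∃ C : ℝ, 1 ≤ C ∧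
    ∀ (s r : Bool) (H : ℝ) (c : ℂ), Par r c H → ∀ a ξ : ℂ, Rl r a → Rl r ξ →
    ∫⁻ b in Icc (-(1 / (n : ℝ))) (1 / (n : ℝ)), ∫⁻ θ in Icc (0 : ℝ) (2 * Real.pi),
      Fl s r A c H a ξ b θ ≤
    ENNReal.ofReal (C * ∑ i ∈ Finset.range (nH H + 1), (2 : ℝ) ^ (-((i * dg r : ℕ) : ℝ)) *
      ((1 + ‖a‖ * H ^ 2 / 2 ^ i) ^ (-(A : ℝ)) * (1 + ‖ξ‖ / (H * 2 ^ i)) ^ (-(A : ℝ)))) := by
  obtain ⟨C, hC, h⟩ := hLA n A hn hA
  refine ⟨max 1 C, le_max_left _ _, fun s r H c hp a ξ ha hξ => ?_⟩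
  have hH : 0 < H := hp.pos
  refine le_trans ?_ (le_trans (h r H c hp a ξ ha hξ) (ENNReal.ofReal_le_ofReal
    (mul_le_mul_of_nonneg_right (le_max_right _ _) (Finset.sum_nonneg fun i _ => by positivity))))
  refine le_of_eq (lintegral_congr fun b => ?_)
  cases s
  · have := conj_int r (fun w => ENNReal.ofReal (amb r A c H (a * ((Real.exp (b / 2) : ℝ) : ℂ) * w)
      (ξ * ((Real.exp (-b / 2) : ℝ) : ℂ) * (starRingEnd ℂ) w)))
    rw [← this]
    rfl
  · rfl

/-! ### The average of one pair -/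

section NF

variable {K : Type} [Field K] [NumberField K]

/-- the local value -/
noncomputable def av (y : InfinitePlace K → ℝ) (x : K) (v : InfinitePlace K) : ℂ :=
  v.embedding x * ((Real.exp (y v / 2) : ℝ) : ℂ)

theorem norm_av (y : InfinitePlace K → ℝ) (x : K) (v : InfinitePlace K) :
    ‖av y x v‖ = v x * Real.exp (y v / 2) := by
  unfold av
  rw [norm_mul, Complex.norm_real, Real.norm_eq_abs, abs_of_pos (Real.exp_pos _),
    InfinitePlace.norm_embedding_eq]

theorem Rl_av (y : InfinitePlace K → ℝ) (x : K) (v : InfinitePlace K) : Rl (rv v) (av y x v) := by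
  have h := Rl_wv v x y (ω := fun _ => 1) ⟨fun _ => by simp, fun _ _ => by simp⟩
  unfold wv at h
  rw [mul_one] at h
  exact h

theorem om_eq (s : Bool) (θ : InfinitePlace K → ℝ) (v : InfinitePlace K) :
    om s θ v = wq s (rv v) (θ v) := by
  unfold om wq
  rw [an_eq]

theorem amb_nonneg (r : Bool) (A : ℕ) (c : ℂ) {H : ℝ} (hH : 0 < H) (a ξ : ℂ) :
    0 ≤ amb r A c H a ξ := by
  unfold amb
  split_ifs
  · positivity
  · exact le_rfl

theorem Amb_eq (A : ℕ) (cp : InfinitePlace K → ℂ) (H : InfinitePlace K → ℝ) (hH : ∀ v, 0 < H v)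
    (s : Bool) (h y' : K) (y Y : InfinitePlace K → ℝ) (θ : InfinitePlace K → ℝ) :
    ENNReal.ofReal (Amb A cp H h y' (fun v => y v + Y v) (om s θ)) =
      ∏ v, Fl s (rv v) A (cp v) (H v) (av y h v) (av (-y) y' v) (Y v) (θ v) := by
  unfold Amb
  rw [ENNReal.ofReal_prod_of_nonneg fun v _ => amb_nonneg _ _ _ (hH v) _ _]
  refine Finset.prod_congr rfl fun v _ => ?_
  unfold Fl
  congr 2
  · unfold wv av
    rw [om_eq, show (y v + Y v) / 2 = y v / 2 + Y v / 2 by ring, Real.exp_add]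
    push_cast
    ring
  · unfold wv av
    simp only [Pi.neg_apply, om_eq]
    rw [show -(y v + Y v) / 2 = -y v / 2 + -Y v / 2 by ring, Real.exp_add]
    push_cast
    ring

theorem exp_GS (H : InfinitePlace K → ℝ) (hH : ∀ v, 0 < H v) (h y' : K)
    (y : InfinitePlace K → ℝ) (i : InfinitePlace K → ℕ) (j : ℕ) :
    Real.exp (-Real.pi * ∑ v : InfinitePlace K, (v.mult : ℝ) *
      ((‖av y h v‖ * H v ^ 2 / 2 ^ i v / 2 ^ j) ^ 2 +
        (‖av (-y) y' v‖ / (H v * 2 ^ i v) / 2 ^ j) ^ 2)) =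
    Real.exp (-Real.pi * qK K (fun v => y v - 2 * Real.log (2 ^ (i v + j) / H v ^ 2)) h) *
      Real.exp (-Real.pi * qK K (fun v => -y v - 2 * Real.log (2 ^ (i v + j) * H v)) y') := by
  rw [← Real.exp_add, ← mul_add]
  unfold qK
  rw [← Finset.sum_add_distrib]
  congr 2
  refine Finset.sum_congr rfl fun v _ => ?_
  have hv := hH v
  have h2 : (0 : ℝ) < 2 ^ (i v + j) := by positivity
  have e1 : Real.exp (y v - 2 * Real.log (2 ^ (i v + j) / H v ^ 2)) =
      Real.exp (y v / 2) ^ 2 * (H v ^ 2 / 2 ^ (i v + j)) ^ 2 := by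
    have h3 : 0 < (2 : ℝ) ^ (i v + j) / H v ^ 2 := by positivity
    have h4 : y v - 2 * Real.log (2 ^ (i v + j) / H v ^ 2) =
        (y v / 2 + y v / 2) + (-Real.log (2 ^ (i v + j) / H v ^ 2) +
          -Real.log (2 ^ (i v + j) / H v ^ 2)) := by ring
    rw [h4, Real.exp_add, Real.exp_add, Real.exp_add, Real.exp_neg, Real.exp_log h3, inv_div]
    ring
  have e2 : Real.exp (-y v - 2 * Real.log (2 ^ (i v + j) * H v)) =
      Real.exp (-y v / 2) ^ 2 * (1 / (2 ^ (i v + j) * H v)) ^ 2 := by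
    have h3 : 0 < (2 : ℝ) ^ (i v + j) * H v := by positivity
    have h4 : -y v - 2 * Real.log (2 ^ (i v + j) * H v) =
        (-y v / 2 + -y v / 2) + (-Real.log (2 ^ (i v + j) * H v) +
          -Real.log (2 ^ (i v + j) * H v)) := by ring
    rw [h4, Real.exp_add, Real.exp_add, Real.exp_add, Real.exp_neg, Real.exp_log h3]
    rw [one_div]
    ring
  rw [e1, e2, norm_av, norm_av, Pi.neg_apply, pow_add]
  field_simp

open scoped Classical in
/-- the average of one pair -/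
theorem pair_avg (hJB : V_JB) (hLA : V_LA) (hGS : V_GS) (n A : ℕ) (hn : 0 < n) (hA : 3 ≤ A) :
    ∃ C : ℝ, 0 ≤ C ∧ ∀ (K : Type) [Field K] [NumberField K],
    Module.finrank ℚ K = n → ∀ (cp : InfinitePlace K → ℂ)
    (H : InfinitePlace K → ℝ) (s : Bool) (h y' : K) (y : InfinitePlace K → ℝ), Prm cp H →
    ∫⁻ b in BX K n, ∫⁻ θ in An K,
        ENNReal.ofReal (Amb A cp H h y' (fun v => y v + yc K b.2 b.1 v) (om s θ)) ≤
    ENNReal.ofReal C * ∑ i ∈ Fintype.piFinset (fun v => Finset.range (nH (H v) + 1)),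
      ENNReal.ofReal (∏ v : InfinitePlace K, (2 : ℝ) ^ (-((i v * v.mult : ℕ) : ℝ))) *
      ∑' j : ℕ, ENNReal.ofReal ((2 : ℝ) ^ (-((A * j : ℕ) : ℝ))) *
        (ENNReal.ofReal (Real.exp (-Real.pi *
          qK K (fun v => y v - 2 * Real.log (2 ^ (i v + j) / H v ^ 2)) h)) *
        ENNReal.ofReal (Real.exp (-Real.pi *
          qK K (fun v => -y v - 2 * Real.log (2 ^ (i v + j) * H v)) y'))) := by
  obtain ⟨CJ, hCJ, hJ⟩ := hJB n hn
  obtain ⟨CL, hCL, hL⟩ := loc_avg hLA n A hn hA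
  obtain ⟨CG, hCG, hG⟩ := hGS n A (by omega)
  refine ⟨CJ * (CL ^ n * CG), by positivity, ?_⟩
  intro K _ _ hK cp H s h y' y hP
  have hH : ∀ v, 0 < H v := fun v => (hP.par v).pos
  set F : InfinitePlace K → ℝ → ℝ → ℝ≥0∞ := fun v b θ =>
    Fl s (rv v) A (cp v) (H v) (av y h v) (av (-y) y' v) b θ with hF
  have hFm : ∀ v, Measurable (fun p : ℝ × ℝ => F v p.1 p.2) := fun v =>
    measurable_Fl s (rv v) A (cp v) (H v) (av y h v) (av (-y) y' v)
  clear_value F
  have hFm2 : ∀ v (b : ℝ), Measurable (F v b) := fun v b => by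
    have h9 : Measurable (fun t : ℝ => ((b, t) : ℝ × ℝ)) := measurable_prodMk_left
    exact (hFm v).comp h9
  have e1 : ∀ b : logSpace K × ℝ, ∫⁻ θ in An K,
      ENNReal.ofReal (Amb A cp H h y' (fun v => y v + yc K b.2 b.1 v) (om s θ)) =
      ∏ v, ∫⁻ t in Icc (0 : ℝ) (2 * Real.pi), F v (yc K b.2 b.1 v) t := by
    intro b
    have e2 : ∀ θ : InfinitePlace K → ℝ,
        ENNReal.ofReal (Amb A cp H h y' (fun v => y v + yc K b.2 b.1 v) (om s θ)) =
        ∏ v, F v (yc K b.2 b.1 v) (θ v) := fun θ => by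
      rw [Amb_eq A cp H hH s h y' y (fun v => yc K b.2 b.1 v), hF]
    simp_rw [e2]
    unfold An
    exact lintegral_box_prod (fun _ => Icc (0 : ℝ) (2 * Real.pi))
      (fun v t => F v (yc K b.2 b.1 v) t) (fun v => hFm2 v _)
  simp_rw [e1]
  have hfm : ∀ v, Measurable (fun b : ℝ => ∫⁻ t in Icc (0 : ℝ) (2 * Real.pi), F v b t) :=
    fun v => (hFm v).lintegral_prod_right'
  refine (hJ K hK (fun v b => ∫⁻ t in Icc (0 : ℝ) (2 * Real.pi), F v b t) hfm).trans ?_
  rw [ENNReal.ofReal_mul hCJ, mul_assoc]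
  refine mul_le_mul' le_rfl ?_
  -- the local averages
  set T : InfinitePlace K → ℕ → ℝ := fun v i => (2 : ℝ) ^ (-((i * dg (rv v) : ℕ) : ℝ)) *
      ((1 + ‖av y h v‖ * H v ^ 2 / 2 ^ i) ^ (-(A : ℝ)) *
        (1 + ‖av (-y) y' v‖ / (H v * 2 ^ i)) ^ (-(A : ℝ))) with hT
  have hT0 : ∀ v i, 0 ≤ T v i := fun v i => by
    have := hH v
    simp only [hT]
    positivity
  have h1 : ∏ v, ∫⁻ b in Icc (-(1 / (n : ℝ))) (1 / (n : ℝ)),
      ∫⁻ t in Icc (0 : ℝ) (2 * Real.pi), F v b t ≤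
      ∏ v : InfinitePlace K, ENNReal.ofReal (CL * ∑ i ∈ Finset.range (nH (H v) + 1), T v i) := by
    refine Finset.prod_le_prod' fun v _ => ?_
    rw [hF]
    exact hL s (rv v) (H v) (cp v) (hP.par v) _ _ (Rl_av y h v) (Rl_av (-y) y' v)
  refine h1.trans ?_
  rw [← ENNReal.ofReal_prod_of_nonneg fun v _ =>
    mul_nonneg (by positivity) (Finset.sum_nonneg fun i _ => hT0 v i)]
  have h2 : ∏ v : InfinitePlace K, (CL * ∑ i ∈ Finset.range (nH (H v) + 1), T v i) ≤
      CL ^ n * ∑ i ∈ Fintype.piFinset (fun v => Finset.range (nH (H v) + 1)), ∏ v, T v (i v) := by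
    rw [Finset.prod_mul_distrib, Finset.prod_const, Finset.card_univ, Finset.prod_univ_sum]
    exact mul_le_mul_of_nonneg_right (pow_le_pow_right₀ hCL (card_places_le hK))
      (Finset.sum_nonneg fun i _ => Finset.prod_nonneg fun v _ => hT0 v _)
  refine (ENNReal.ofReal_le_ofReal h2).trans ?_
  rw [ENNReal.ofReal_mul (by positivity), ENNReal.ofReal_mul (by positivity), mul_assoc]
  refine mul_le_mul' le_rfl ?_
  rw [ENNReal.ofReal_sum_of_nonneg fun i _ => Finset.prod_nonneg fun v _ => hT0 v _,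
    Finset.mul_sum]
  refine Finset.sum_le_sum fun i _ => ?_
  have h3 : ∏ v, T v (i v) = (∏ v : InfinitePlace K, (2 : ℝ) ^ (-((i v * v.mult : ℕ) : ℝ))) *
      ∏ v, ((1 + ‖av y h v‖ * H v ^ 2 / 2 ^ i v) ^ (-(A : ℝ)) *
        (1 + ‖av (-y) y' v‖ / (H v * 2 ^ i v)) ^ (-(A : ℝ))) := by
    rw [← Finset.prod_mul_distrib]
    refine Finset.prod_congr rfl fun v _ => ?_
    simp only [hT]
    rw [dg_rv]
  obtain ⟨hs, hb⟩ := hG (InfinitePlace K) (fun v => v.mult)
    (fun v => ‖av y h v‖ * H v ^ 2 / 2 ^ i v) (fun v => ‖av (-y) y' v‖ / (H v * 2 ^ i v))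
    (sum_mult hK) (fun v => mult_pos' v) (fun v => by
      have := hH v
      constructor <;> positivity)
  rw [h3, ENNReal.ofReal_mul (Finset.prod_nonneg fun v _ => by positivity), mul_left_comm]
  refine mul_le_mul' le_rfl ?_
  refine (ENNReal.ofReal_le_ofReal hb).trans ?_
  rw [ENNReal.ofReal_mul hCG, ENNReal.ofReal_tsum_of_nonneg (fun j => by positivity) hs]
  refine mul_le_mul' le_rfl (le_of_eq (tsum_congr fun j => ?_))
  rw [ENNReal.ofReal_mul (by positivity), exp_GS H hH h y' y i j,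
    ENNReal.ofReal_mul (Real.exp_pos _).le]

end NF

end Pool.Agent.H45.DW
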